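import Mathlib
import Pool.Agent.Run7.h866.NU.Sym

set_option autoImplicit false

/-!
# Non-special plane linear systems: near-uniform multiplicities and controlled classes

A function `v` is near-uniform on a set `T` of points if `|T| ≥ 200` and `v i ∈ {m, m + 1}` on `T` for
some `m ≥ 1`, or `|T| ≥ 37` and `v` is close to a constant `m ≥ (|T| + 6) / 2` on `T`. A class `(d; w)` is
controlled if for such `T`, `v`
* `w = v` on `T` and `w ≤ 1` at the other points, or
* `w ≤ v` on `T`, `w ≤ 1` at the other points and `∑_T (v i + 1).choose 2 ≤ (d + 2).choose 2`, or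
* `w ≥ v` on `T` and `(d + 2).choose 2 ≤ ∑_T (v i + 1).choose 2`.

At general points of the complex projective plane the linear system of the curves of degree `d` with
multiplicities at least `w i` is non-special if `(d; w)` is controlled, with or without isolated
singularities of the general member at the points. If `w` itself is near-uniform on the set of all
points, this holds for all degrees `d` at the same points.
-/

namespace Pool.Agent.Results.MP_0b14b0_ag.PlaneControlledClasses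

open MvPolynomial

/-- The forms of degree `d` with multiplicity at least `w i` at the point `(P i 0 : P i 1 : 1)` of
the complex projective plane, for every `i`, form a space of the expected dimension
`max (0, (d + 2).choose 2 - ∑ (w i + 1).choose 2)`. -/
def NonSpecial {n : ℕ} (w : Fin n → ℕ) (P : Fin n → Fin 2 → ℂ) (d : ℕ) : Prop :=
  Module.finrank ℂ
    ↥(MvPolynomial.homogeneousSubmodule (Fin 3) ℂ d ⊓
      Submodule.restrictScalars ℂ
        (⨅ i : Fin n,
          (Ideal.span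
            ({MvPolynomial.X 0 - MvPolynomial.C (P i 0) * MvPolynomial.X 2,
              MvPolynomial.X 1 - MvPolynomial.C (P i 1) * MvPolynomial.X 2} :
              Set (MvPolynomial (Fin 3) ℂ))) ^ (w i)))
    = Nat.choose (d + 2) 2 - ∑ i, Nat.choose (w i + 1) 2

/-- The cost of a multiplicity `e ≤ m + 1`. -/
def cost (m e : ℕ) : ℕ := if e < m then 4 * (m - e) - 2 else if e = m then 0 else 1

/-- `0, 5, 2, 3` for `t ≡ 0, 1, 2, 3` modulo four. -/
def spare (t : ℕ) : ℕ := if t % 4 = 1 then 5 else t % 4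

/-- Near-uniform on the set `T` of points: entries `m`, `m + 1` at `200` or more points, or close to a
constant at `37` or more points. -/
def NearUniform {n : ℕ} (T : Finset (Fin n)) (v : Fin n → ℕ) : Prop :=
  (200 ≤ T.card ∧ ∃ m : ℕ, 1 ≤ m ∧ ∀ i ∈ T, v i = m ∨ v i = m + 1) ∨
  (37 ≤ T.card ∧ ∃ m : ℕ, T.card + 6 ≤ 2 * m ∧ (∀ i ∈ T, v i ≤ m + 1) ∧
    (((∑ i ∈ T, cost m (v i) : ℕ) : ℝ) + (spare T.card : ℝ) / 2 + 9 / 8 <
        7 * Real.sqrt T.card / 6 ∨
      ((∑ i ∈ T, cost m (v i) : ℕ) : ℝ) + spare T.card + 2 * Real.sqrt T.card / 3 + 23 / 8 ≤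
        (T.card : ℝ) / 4))

/-- The controlled classes. -/
def Controlled {n : ℕ} (d : ℕ) (w : Fin n → ℕ) : Prop :=
  ∃ (T : Finset (Fin n)) (v : Fin n → ℕ), NearUniform T v ∧
    (((∀ i, i ∉ T → w i ≤ 1) ∧ ((∀ i ∈ T, w i = v i) ∨
        ((∀ i ∈ T, w i ≤ v i) ∧ ∑ i ∈ T, (v i + 1).choose 2 ≤ (d + 2).choose 2))) ∨
      ((∀ i ∈ T, v i ≤ w i) ∧ (d + 2).choose 2 ≤ ∑ i ∈ T, (v i + 1).choose 2))

theorem ctrl_of {n d : ℕ} {w : Fin n → ℕ} (h : Controlled d w) :
    Pool.Agent.Run7.h866.NU.Ctrl d w := by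
  obtain ⟨T, v, hv, h⟩ := h
  refine Pool.Agent.Run7.h866.NU.ctrl_of_on (T := T) (v := v) ?_ h
  have ec : ∀ m e, cost m e = Pool.Agent.Run7.h866.NU.cst m e := fun _ _ => rfl
  have es : ∀ t, spare t = Pool.Agent.Run7.h866.NU.cc t := fun _ => rfl
  rcases hv with ⟨h1, m, hm, h2⟩ | ⟨h1, m, hm, h2, h3⟩
  · exact Or.inl ⟨h1, m, hm, h2⟩
  · simp only [ec, es] at h3
    exact Or.inr ⟨h1, m, hm, h2, h3⟩

theorem result :
    (∀ (n d : ℕ) (w : Fin n → ℕ), Controlled d w →
      ∃ F : MvPolynomial (Fin n × Fin 2) ℂ, F ≠ 0 ∧ ∀ P : Fin n → Fin 2 → ℂ,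
        MvPolynomial.eval (fun ij : Fin n × Fin 2 => P ij.1 ij.2) F ≠ 0 → NonSpecial w P d) ∧
    (∀ (n : ℕ) (w : Fin n → ℕ), NearUniform Finset.univ w →
      ∃ F : MvPolynomial (Fin n × Fin 2) ℂ, F ≠ 0 ∧ ∀ P : Fin n → Fin 2 → ℂ,
        MvPolynomial.eval (fun ij : Fin n × Fin 2 => P ij.1 ij.2) F ≠ 0 →
          ∀ d : ℕ, NonSpecial w P d) := by
  constructor
  · intro n d w h
    obtain ⟨F, hF, hF'⟩ := Pool.Agent.Run7.h866.NU.ctrl_open (ctrl_of h)
    refine ⟨F.map (algebraMap ℚ ℂ), Pool.Agent.H932R3.map_ne_zero_of hF, fun P hP => ?_⟩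
    rw [MvPolynomial.eval_map] at hP
    exact hF' P hP
  · intro n w h
    have hv : Pool.Agent.Run7.h866.NU.NearV w := by
      have ec : ∀ m e, cost m e = Pool.Agent.Run7.h866.NU.cst m e := fun _ _ => rfl
      have es : ∀ t, spare t = Pool.Agent.Run7.h866.NU.cc t := fun _ => rfl
      unfold NearUniform at h
      simp only [Finset.card_univ, Fintype.card_fin, Finset.mem_univ, true_implies, ec, es] at h
      rcases h with ⟨h1, m, hm, h2⟩ | ⟨h1, m, hm, h2, h3⟩
      · exact Or.inl ⟨h1, m, hm, h2⟩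
      · exact Or.inr ⟨m, h1, hm, h2, h3⟩
    obtain ⟨F, hF, hF'⟩ := Pool.Agent.Run7.h866.NU.nearV_exp hv ℂ
    refine ⟨F.map (algebraMap ℚ ℂ), Pool.Agent.H932R3.map_ne_zero_of hF, fun P hP d => ?_⟩
    rw [MvPolynomial.eval_map] at hP
    exact hF' P hP d

end Pool.Agent.Results.MP_0b14b0_ag.PlaneControlledClasses
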